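import Pool.Agent.PCS.Stmts

/-! Squad PCS, row FIX: a subgroup of finite index fixing all points with small finite orbits. -/

open scoped Pointwise

namespace Pool.Agent.Helper65_PCS.FIX

open Pool.Agent.PCS

theorem finite_homs {Γ : Type} [Group Γ] (S : Finset Γ)
    (hS : Subgroup.closure (S : Set Γ) = ⊤) (M : ℕ) : Finite (Γ →* Equiv.Perm (Fin M)) := by
  refine Finite.of_injective
    (fun (f : Γ →* Equiv.Perm (Fin M)) (s : (S : Set Γ)) => f s.1) ?_
  intro f g hfg
  refine MonoidHom.eq_of_eqOn_dense hS ?_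
  intro s hs
  exact congrFun hfg ⟨s, hs⟩

theorem main : FixStmt := by
  intro Γ V _ _ S hS M
  have hfin : Finite (Γ →* Equiv.Perm (Fin M)) := finite_homs S hS M
  refine ⟨⨅ f : Γ →* Equiv.Perm (Fin M), f.ker, ?_, ?_⟩
  · exact Subgroup.finiteIndex_iInf fun f => inferInstance
  · intro v hv hN h hh
    have hf : Finite (MulAction.orbit Γ v) := hv.to_subtype
    have hcard : Nat.card (MulAction.orbit Γ v) ≤ M := hN
    let e : MulAction.orbit Γ v ↪ Fin M :=
      (Finite.equivFin (MulAction.orbit Γ v)).toEmbedding.trans (Fin.castLEEmb hcard)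
    have h1 : ((Equiv.Perm.viaEmbeddingHom e).comp
        (MulAction.toPermHom Γ (MulAction.orbit Γ v))) h = 1 := by
      have := (Subgroup.mem_iInf.1 hh) ((Equiv.Perm.viaEmbeddingHom e).comp
        (MulAction.toPermHom Γ (MulAction.orbit Γ v)))
      exact this
    have h2 : MulAction.toPermHom Γ (MulAction.orbit Γ v) h = 1 := by
      apply Equiv.Perm.viaEmbeddingHom_injective e
      rw [map_one]
      exact h1
    have h3 : h • (⟨v, MulAction.mem_orbit_self v⟩ : MulAction.orbit Γ v) =
        ⟨v, MulAction.mem_orbit_self v⟩ := by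
      have := congrArg (fun p : Equiv.Perm (MulAction.orbit Γ v) =>
        p ⟨v, MulAction.mem_orbit_self v⟩) h2
      exact this
    exact congrArg Subtype.val h3

end Pool.Agent.Helper65_PCS.FIX
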